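import Pool.Agent.Helper64.SP.Final

/-!
# MP_0bd3a7_an: the maps `f_s` are starlike in the literal sense

`f_s (z1, z2) = (K z1, z2 V_s z1)`; for `0 < t ≤ 1` and `z` in the ball the point `t f_s z` is the value of `f_s` at
`w = (w1, t z2 V_s z1 / V_s w1)`, `w1 = (S - 1)/(S + 1)`, `S = √((1 - t) + t ζ²)`, `ζ = (1 + z1)/(1 - z1)`; the
function `‖V_s w1‖² (1 - ‖w1‖²)/t²` is decreasing in `t`, so `w` is in the ball.
-/

set_option autoImplicit false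

open Complex MeasureTheory Metric Set Real Filter Topology ComplexConjugate
open Pool.Agent.Helper64.SP

namespace Pool.Agent.Helper52.OWNStar

/-- Cayley variable -/
noncomputable def ze (z : ℂ) : ℂ := (1 + z) / (1 - z)

/-- the point of the segment from `1` to `ζ²` -/
noncomputable def uu (z : ℂ) (t : ℝ) : ℂ := (1 - t) + t * ze z ^ 2

/-- the square root -/
noncomputable def SQ (z : ℂ) (t : ℝ) : ℂ := Complex.exp (Complex.log (uu z t) / 2)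

/-- the first coordinate of the curve -/
noncomputable def w1 (z : ℂ) (t : ℝ) : ℂ := (SQ z t - 1) / (SQ z t + 1)

lemma ze_re {z : ℂ} (hz : z ∈ ball (0 : ℂ) 1) : 0 < (ze z).re := by
  have h0 := one_sub_ne hz
  have hz1 : ‖z‖ < 1 := by simpa using hz
  have hn : 0 < Complex.normSq (1 - z) := Complex.normSq_pos.2 h0
  have h1 : (ze z).re = (1 - ‖z‖ ^ 2) / Complex.normSq (1 - z) := by
    unfold ze
    rw [Complex.div_re, ← Complex.normSq_eq_norm_sq z, Complex.normSq_apply z]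
    simp only [Complex.add_re, Complex.one_re, Complex.sub_re, Complex.add_im, Complex.one_im,
      Complex.sub_im]
    field_simp
    ring
  rw [h1]
  apply div_pos _ hn
  nlinarith [norm_nonneg z]

lemma sq_slit {ζ : ℂ} (h : 0 < ζ.re) : ζ ^ 2 ∈ Complex.slitPlane := by
  rw [Complex.mem_slitPlane_iff]
  by_cases hi : ζ.im = 0
  · left
    rw [pow_two, Complex.mul_re, hi]
    nlinarith
  · right
    rw [pow_two, Complex.mul_im]
    have : ζ.re * ζ.im ≠ 0 := mul_ne_zero h.ne' hi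
    intro h2
    apply this
    linarith [h2, mul_comm ζ.re ζ.im]

lemma uu_slit {z : ℂ} (hz : z ∈ ball (0 : ℂ) 1) {t : ℝ} (h0 : 0 ≤ t) (h1 : t ≤ 1) :
    uu z t ∈ Complex.slitPlane := by
  have h := sq_slit (ze_re hz)
  rw [Complex.mem_slitPlane_iff] at h ⊢
  unfold uu
  have hre : ((1 : ℂ) - t + t * ze z ^ 2).re = (1 - t) + t * (ze z ^ 2).re := by
    rw [Complex.add_re, Complex.sub_re, Complex.one_re, Complex.ofReal_re, Complex.re_ofReal_mul]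
  have him : ((1 : ℂ) - t + t * ze z ^ 2).im = t * (ze z ^ 2).im := by
    rw [Complex.add_im, Complex.sub_im, Complex.one_im, Complex.ofReal_im, Complex.im_ofReal_mul]
    ring
  rw [hre, him]
  by_cases ht : t = 0
  · left
    rw [ht]; norm_num
  · have htp : 0 < t := lt_of_le_of_ne h0 (Ne.symm ht)
    by_cases hi : (ze z ^ 2).im = 0
    · left
      have h2 : 0 < (ze z ^ 2).re := by
        rcases h with h | h
        · exact h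
        · exact absurd hi h
      have h3 : 0 < t * (ze z ^ 2).re := mul_pos htp h2
      linarith
    · right
      exact mul_ne_zero ht hi

lemma SQ_sq {z : ℂ} (hz : z ∈ ball (0 : ℂ) 1) {t : ℝ} (h0 : 0 ≤ t) (h1 : t ≤ 1) :
    SQ z t ^ 2 = uu z t := by
  unfold SQ
  rw [← Complex.exp_nat_mul]
  have : ((2 : ℕ) : ℂ) * (Complex.log (uu z t) / 2) = Complex.log (uu z t) := by
    push_cast; ring
  rw [this, Complex.exp_log (Complex.slitPlane_ne_zero (uu_slit hz h0 h1))]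

lemma SQ_re {z : ℂ} (hz : z ∈ ball (0 : ℂ) 1) {t : ℝ} (h0 : 0 ≤ t) (h1 : t ≤ 1) :
    0 < (SQ z t).re := by
  unfold SQ
  rw [Complex.exp_re]
  apply mul_pos (Real.exp_pos _)
  apply Real.cos_pos_of_mem_Ioo
  have h2 := Complex.mem_slitPlane_iff_arg.1 (uu_slit hz h0 h1)
  have h3 := Complex.neg_pi_lt_arg (uu z t)
  have h4 := Complex.arg_le_pi (uu z t)
  have h5 : (Complex.log (uu z t) / 2).im = Complex.arg (uu z t) / 2 := by
    rw [show (Complex.log (uu z t) / 2 : ℂ) = Complex.log (uu z t) / ((2 : ℝ) : ℂ) by push_cast; rfl,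
      Complex.div_ofReal_im, Complex.log_im]
  rw [h5]
  have h6 : Complex.arg (uu z t) < π := lt_of_le_of_ne h4 h2.1
  constructor <;> linarith

lemma S_add_ne {S : ℂ} (h : 0 < S.re) : S + 1 ≠ 0 := by
  intro h1
  have := congrArg Complex.re h1
  simp at this
  linarith

lemma cay_mem {S : ℂ} (h : 0 < S.re) : (S - 1) / (S + 1) ∈ ball (0 : ℂ) 1 := by
  rw [mem_ball_zero_iff, norm_div, div_lt_one (norm_pos_iff.2 (S_add_ne h))]
  rw [← sq_lt_sq₀ (norm_nonneg _) (norm_nonneg _), ← Complex.normSq_eq_norm_sq,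
    ← Complex.normSq_eq_norm_sq, Complex.normSq_apply, Complex.normSq_apply]
  simp only [Complex.sub_re, Complex.one_re, Complex.sub_im, Complex.one_im, Complex.add_re,
    Complex.add_im]
  nlinarith

lemma w1_mem {z : ℂ} (hz : z ∈ ball (0 : ℂ) 1) {t : ℝ} (h0 : 0 ≤ t) (h1 : t ≤ 1) :
    w1 z t ∈ ball (0 : ℂ) 1 := cay_mem (SQ_re hz h0 h1)

lemma KK_cay {S : ℂ} (h : S + 1 ≠ 0) : KK ((S - 1) / (S + 1)) = (S ^ 2 - 1) / 4 := by
  unfold KK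
  have h1 : 1 - (S - 1) / (S + 1) = 2 / (S + 1) := by
    field_simp
    ring
  rw [h1]
  field_simp
  ring

lemma KK_w1 {z : ℂ} (hz : z ∈ ball (0 : ℂ) 1) {t : ℝ} (h0 : 0 ≤ t) (h1 : t ≤ 1) :
    KK (w1 z t) = t * KK z := by
  unfold w1
  rw [KK_cay (S_add_ne (SQ_re hz h0 h1)), SQ_sq hz h0 h1]
  unfold uu ze KK
  have h2 := one_sub_ne hz
  field_simp
  ring

lemma w1_one {z : ℂ} (hz : z ∈ ball (0 : ℂ) 1) : w1 z 1 = z := by
  apply KK_inj (w1_mem hz zero_le_one le_rfl) hz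
  rw [KK_w1 hz zero_le_one le_rfl]
  push_cast
  ring

lemma w1_deriv {z : ℂ} (hz : z ∈ ball (0 : ℂ) 1) {t : ℝ} (h0 : 0 < t) (h1 : t ≤ 1) :
    HasDerivAt (w1 z) (w1 z t * pp (w1 z t) / t) t := by
  have hd : ∃ d, HasDerivAt (w1 z) d t := by
    have e1 : HasDerivAt (fun t : ℝ => (t : ℂ)) 1 t := Complex.ofRealCLM.hasDerivAt
    have e2 : HasDerivAt (uu z) (-1 + 1 * ze z ^ 2) t := by
      have := (e1.const_sub 1).add (e1.mul_const (ze z ^ 2))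
      exact this
    have e3 := (e2.clog_real (uu_slit hz h0.le h1)).div_const 2
    have e4 : HasDerivAt (SQ z) _ t := e3.cexp
    have e5 : HasDerivAt (w1 z) _ t := (e4.sub_const 1).div (e4.add_const 1)
      (S_add_ne (SQ_re hz h0.le h1))
    exact ⟨_, e5⟩
  obtain ⟨d, hd⟩ := hd
  refine hd.congr_deriv ?_
  have hw := w1_mem hz h0.le h1
  have e6 : HasDerivAt (fun t : ℝ => KK (w1 z t)) (KK' (w1 z t) * d) t :=
    HasDerivAt.comp t (KK_deriv hw) hd |> fun h => h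
  have e7 : HasDerivWithinAt (fun t : ℝ => (t : ℂ) * KK z) (1 * KK z) (Icc 0 1) t := by
    have e1 : HasDerivAt (fun t : ℝ => (t : ℂ)) 1 t := Complex.ofRealCLM.hasDerivAt
    exact (e1.mul_const (KK z)).hasDerivWithinAt
  have e8 : HasDerivWithinAt (fun t : ℝ => KK (w1 z t)) (1 * KK z) (Icc 0 1) t := by
    apply e7.congr
    · intro x hx
      exact KK_w1 hz hx.1 hx.2
    · exact KK_w1 hz h0.le h1
  have e9 : KK' (w1 z t) * d = 1 * KK z :=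
    (uniqueDiffOn_Icc_zero_one t ⟨h0.le, h1⟩).eq_deriv _ e6.hasDerivWithinAt e8
  have e10 := KK_w1 hz h0.le h1
  have ht : (t : ℂ) ≠ 0 := by exact_mod_cast h0.ne'
  have e11 := KK_div hw
  have e12 := KK'_ne hw
  rw [← e11, e10]
  field_simp
  linear_combination e9

/-- the decreasing function -/
noncomputable def GG (V : ℂ → ℂ) (z : ℂ) (t : ℝ) : ℝ :=
  ‖V (w1 z t)‖ ^ 2 * (1 - ‖w1 z t‖ ^ 2) * (t ^ 2)⁻¹

lemma GG_deriv {V : ℂ → ℂ} {v' : ℂ} {z : ℂ} (hz : z ∈ ball (0 : ℂ) 1) {t : ℝ} (h0 : 0 < t)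
    (h1 : t ≤ 1) (hV : HasDerivAt V v' (w1 z t)) (hne : V (w1 z t) ≠ 0)
    (hpos : 0 ≤ (1 - ‖w1 z t‖ ^ 2) * (1 - v' / V (w1 z t) * (w1 z t * pp (w1 z t))).re +
      ‖w1 z t‖ ^ 2 * (pp (w1 z t)).re) :
    ∃ d ≤ 0, HasDerivAt (GG V z) d t := by
  have hw := w1_deriv hz h0 h1
  have e1 : HasDerivAt (fun t : ℝ => V (w1 z t)) (v' * (w1 z t * pp (w1 z t) / t)) t :=
    HasDerivAt.comp t hV hw
  have e2 := e1.norm_sq
  have e3 := hw.norm_sq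
  have e4 : HasDerivAt (fun t : ℝ => (t ^ 2)⁻¹) (-(2 * t) / (t ^ 2) ^ 2) t := by
    have := (hasDerivAt_pow 2 t).inv (pow_ne_zero 2 h0.ne')
    refine this.congr_deriv ?_
    push_cast
    ring
  have e5 := (e2.mul (e3.const_sub 1)).mul e4
  refine ⟨_, ?_, e5⟩
  set w := w1 z t with hwdef
  set p := pp w with hp
  set c := v' / V w * (w * p) with hc
  have i1 : ∀ a b : ℂ, (inner ℝ a b : ℝ) = (conj a * b).re := by
    intro a b
    rw [Complex.inner, mul_comm]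
  have ht : (t : ℂ) ≠ 0 := by exact_mod_cast h0.ne'
  have cv : v' * (w * p / t) = V w * (c * ((t⁻¹ : ℝ) : ℂ)) := by
    rw [hc]
    push_cast
    field_simp
  have cw : w * p / t = w * (p * ((t⁻¹ : ℝ) : ℂ)) := by
    push_cast
    field_simp
  have i2 : ∀ a b : ℂ, (conj a * (a * (b * ((t⁻¹ : ℝ) : ℂ)))).re = ‖a‖ ^ 2 * (b.re * t⁻¹) := by
    intro a b
    have h2 : conj a * (a * (b * ((t⁻¹ : ℝ) : ℂ))) = ((‖a‖ ^ 2 : ℝ) : ℂ) * (b * ((t⁻¹ : ℝ) : ℂ)) := by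
      rw [← mul_assoc, mul_comm (conj a) a, Complex.mul_conj, Complex.normSq_eq_norm_sq]
    rw [h2, Complex.re_ofReal_mul, Complex.re_mul_ofReal]
  rw [i1, i1, cv, cw, i2, i2]
  have hcre : (1 - c).re = 1 - c.re := by simp
  rw [hcre] at hpos
  have hN : 0 ≤ ‖V w‖ ^ 2 := by positivity
  have key : 2 * (‖V w‖ ^ 2 * (c.re * t⁻¹)) * (1 - ‖w‖ ^ 2) + ‖V w‖ ^ 2 *
      -(2 * (‖w‖ ^ 2 * (p.re * t⁻¹))) = 2 * t⁻¹ * ‖V w‖ ^ 2 *
      (c.re * (1 - ‖w‖ ^ 2) - ‖w‖ ^ 2 * p.re) := by ring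
  have e6 : -(2 * t) / (t ^ 2) ^ 2 = - (2 * t⁻¹ * (t ^ 2)⁻¹) := by
    field_simp
  have goal2 : (2 * t⁻¹ * ‖V w‖ ^ 2 * (c.re * (1 - ‖w‖ ^ 2) - ‖w‖ ^ 2 * p.re)) * (t ^ 2)⁻¹ +
      ‖V w‖ ^ 2 * (1 - ‖w‖ ^ 2) * (- (2 * t⁻¹ * (t ^ 2)⁻¹)) =
      - (2 * t⁻¹ * (t ^ 2)⁻¹ * ‖V w‖ ^ 2 * ((1 - ‖w‖ ^ 2) * (1 - c.re) + ‖w‖ ^ 2 * p.re)) := by
    ring
  have hfin : 0 ≤ 2 * t⁻¹ * (t ^ 2)⁻¹ * ‖V w‖ ^ 2 *
      ((1 - ‖w‖ ^ 2) * (1 - c.re) + ‖w‖ ^ 2 * p.re) := by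
    positivity
  show (2 * (‖V w‖ ^ 2 * (c.re * t⁻¹)) * (1 - ‖w‖ ^ 2) + ‖V w‖ ^ 2 *
      -(2 * (‖w‖ ^ 2 * (p.re * t⁻¹)))) * (t ^ 2)⁻¹ +
      ‖V w‖ ^ 2 * (1 - ‖w‖ ^ 2) * (-(2 * t) / (t ^ 2) ^ 2) ≤ 0
  rw [key, e6, goal2]
  linarith

lemma GG_anti {V V' : ℂ → ℂ} {z : ℂ} (hz : z ∈ ball (0 : ℂ) 1)
    (hV : ∀ w ∈ ball (0 : ℂ) 1, HasDerivAt V (V' w) w) (hne : ∀ w, V w ≠ 0)
    (hpos : ∀ w ∈ ball (0 : ℂ) 1, 0 ≤ (1 - ‖w‖ ^ 2) * (1 - V' w / V w * (w * pp w)).re +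
      ‖w‖ ^ 2 * (pp w).re) {t : ℝ} (h0 : 0 < t) (h1 : t ≤ 1) : GG V z 1 ≤ GG V z t := by
  have hd : ∀ x ∈ Icc t 1, ∃ d ≤ 0, HasDerivAt (GG V z) d x := by
    intro x hx
    have hx0 : 0 < x := lt_of_lt_of_le h0 hx.1
    have hw := w1_mem hz hx0.le hx.2
    exact GG_deriv hz hx0 hx.2 (hV _ hw) (hne _) (hpos _ hw)
  have hanti : AntitoneOn (GG V z) (Icc t 1) := by
    apply antitoneOn_of_deriv_nonpos (convex_Icc t 1)
    · intro x hx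
      obtain ⟨d, _, h⟩ := hd x hx
      exact h.continuousAt.continuousWithinAt
    · intro x hx
      rw [interior_Icc] at hx
      obtain ⟨d, _, h⟩ := hd x ⟨hx.1.le, hx.2.le⟩
      exact h.differentiableAt.differentiableWithinAt
    · intro x hx
      rw [interior_Icc] at hx
      obtain ⟨d, hd0, h⟩ := hd x ⟨hx.1.le, hx.2.le⟩
      rw [h.deriv]
      exact hd0
  exact hanti (left_mem_Icc.2 h1) (right_mem_Icc.2 h1) h1

lemma pos_V {q : ℂ} (hq : GoodQ q) {s : ℝ} (hs : Adm s) {w : ℂ} (hw : w ∈ ball (0 : ℂ) 1) :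
    0 ≤ (1 - ‖w‖ ^ 2) * (1 - Vs' q s w / Vs q s w * (w * pp w)).re + ‖w‖ ^ 2 * (pp w).re := by
  have h1 := c_formula q hs hw
  rw [KK_div hw] at h1
  rw [h1]
  have h2 := pp_re hw
  have h3 := pp_re_pos hw
  have h4 := key_nonneg hq hw hs
  have h0 := one_add_ne hw
  have h5 : ‖w / (1 + w)‖ ^ 2 * ‖1 + w‖ ^ 2 = ‖w‖ ^ 2 := by
    rw [norm_div, div_pow, div_mul_cancel₀]
    have : 0 < ‖1 + w‖ := norm_pos_iff.2 h0
    positivity
  rw [← h2]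
  have h6 : (pp w).re * ‖1 + w‖ ^ 2 * (cs q s w).re + ‖w‖ ^ 2 * (pp w).re =
      (pp w).re * ‖1 + w‖ ^ 2 * (‖w / (1 + w)‖ ^ 2 + (cs q s w).re) := by
    linear_combination -(pp w).re * h5
  rw [h6]
  positivity

/-- literal starlikeness of `f_s` -/
theorem ff_star {q : ℂ} (hq : GoodQ q) {s : ℝ} (hs : Adm s) {z : E2} (hz : z ∈ ball (0 : E2) 1)
    {t : ℝ} (h0 : 0 < t) (h1 : t ≤ 1) :
    ∃ w ∈ ball (0 : E2) 1, ff q s w = (t : ℂ) • ff q s z := by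
  have hz0 := fst_mem_ball hz
  set z1 := z 0 with hz1
  set V := Vs q s with hVdef
  have hne : ∀ w, V w ≠ 0 := fun w => Vs_ne q hs w
  have hanti := GG_anti (V := V) (V' := Vs' q s) hz0 (fun w hw => Vs_deriv q s hw) hne
    (fun w hw => pos_V hq hs hw) h0 h1
  have hw := w1_mem hz0 h0.le h1
  set w := w1 z1 t with hwdef
  have hwn : ‖w‖ < 1 := by simpa using hw
  have hzn : ‖z1‖ < 1 := by simpa using hz0
  have hb := (mem_ball_iff z).1 hz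
  unfold GG at hanti
  rw [w1_one hz0, ← hwdef] at hanti
  have hVw : 0 < ‖V w‖ := norm_pos_iff.2 (hne w)
  have hVz : 0 < ‖V z1‖ := norm_pos_iff.2 (hne z1)
  have hb' : ‖P.symm (w, (t : ℂ) * z 1 * V z1 / V w) 0‖ ^ 2 +
      ‖P.symm (w, (t : ℂ) * z 1 * V z1 / V w) 1‖ ^ 2 < 1 := by
    rw [P_symm_zero, P_symm_one]
    simp only
    rw [norm_div, norm_mul, norm_mul, Complex.norm_real, Real.norm_eq_abs, abs_of_pos h0, div_pow,
      mul_pow, mul_pow]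
    have h3 : 1 - ‖w‖ ^ 2 > 0 := by nlinarith [norm_nonneg w]
    have h4 : 1 - ‖z1‖ ^ 2 > 0 := by nlinarith [norm_nonneg z1]
    have h5 : ‖z 1‖ ^ 2 < 1 - ‖z1‖ ^ 2 := by linarith
    have h6 : ‖V z1‖ ^ 2 * (1 - ‖z1‖ ^ 2) * t ^ 2 ≤ ‖V w‖ ^ 2 * (1 - ‖w‖ ^ 2) := by
      have h7 : ‖V z1‖ ^ 2 * (1 - ‖z1‖ ^ 2) ≤ ‖V w‖ ^ 2 * (1 - ‖w‖ ^ 2) * (t ^ 2)⁻¹ := by
        simpa using hanti
      have h8 : 0 < t ^ 2 := by positivity
      calc ‖V z1‖ ^ 2 * (1 - ‖z1‖ ^ 2) * t ^ 2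
          ≤ ‖V w‖ ^ 2 * (1 - ‖w‖ ^ 2) * (t ^ 2)⁻¹ * t ^ 2 := by gcongr
        _ = ‖V w‖ ^ 2 * (1 - ‖w‖ ^ 2) := by
          field_simp
    have h9 : t ^ 2 * ‖z 1‖ ^ 2 * ‖V z1‖ ^ 2 < ‖V w‖ ^ 2 * (1 - ‖w‖ ^ 2) := by
      have h10 : t ^ 2 * ‖z 1‖ ^ 2 * ‖V z1‖ ^ 2 < t ^ 2 * (1 - ‖z1‖ ^ 2) * ‖V z1‖ ^ 2 := by
        have : 0 < t ^ 2 := by positivity
        have : 0 < ‖V z1‖ ^ 2 := by positivity
        gcongr
      nlinarith [h10, h6]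
    have h11 : t ^ 2 * ‖z 1‖ ^ 2 * ‖V z1‖ ^ 2 / ‖V w‖ ^ 2 < 1 - ‖w‖ ^ 2 := by
      rw [div_lt_iff₀ (by positivity)]
      linarith
    linarith
  have hmem : P.symm (w, (t : ℂ) * z 1 * V z1 / V w) ∈ ball (0 : E2) 1 := (mem_ball_iff _).2 hb'
  refine ⟨P.symm (w, (t : ℂ) * z 1 * V z1 / V w), hmem, ?_⟩
  rw [ff_apply q s hmem, ff_apply q s hz, ← map_smul]
  congr 1
  rw [P_symm_zero, P_symm_one]
  ext
  · simp only [Prod.smul_fst, smul_eq_mul]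
    rw [hwdef, KK_w1 hz0 h0.le h1]
  · simp only [Prod.smul_snd, smul_eq_mul]
    rw [← hVdef, ← hz1]
    have := hne w
    field_simp

end Pool.Agent.Helper52.OWNStar
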